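import Pool.Agent.H33.AV3.ONT

/-!
# FLT: the points with `3T = Q` are flexes
-/

set_option autoImplicit false

namespace Pool.AV3

open Polynomial Matrix Pool.AVR

namespace H33

variable {K : Type} [Field K]

theorem addX_eq {a b c : K} (x₁ x₂ l : K) :
    (E a b c).toAffine.addX x₁ x₂ l = l ^ 2 - a - x₁ - x₂ := by
  simp only [WeierstrassCurve.Affine.addX, E, zero_mul, add_zero]

theorem addY_eq {a b c : K} (x₁ x₂ y₁ l : K) :
    (E a b c).toAffine.addY x₁ x₂ y₁ l =
      -(y₁ + l * ((E a b c).toAffine.addX x₁ x₂ l - x₁)) := by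
  rw [WeierstrassCurve.Affine.addY, negY_eq, WeierstrassCurve.Affine.negAddY]
  ring

theorem neg_ne {y : K} (h2 : (2 : K) ≠ 0) (hy : y ≠ 0) : y ≠ -y := by
  intro h
  apply mul_ne_zero h2 hy
  linear_combination h

/-- Doubling. -/
theorem dbl [DecidableEq K] {a b c : K} (h2 : (2 : K) ≠ 0) {x₁ y₁ : K} (hy : y₁ ≠ 0)
    (h₁ : (E a b c).toAffine.Nonsingular x₁ y₁) :
    ∃ (t xW yW : K) (hW : (E a b c).toAffine.Nonsingular xW yW),
      (WeierstrassCurve.Affine.Point.some x₁ y₁ h₁ : Pt a b c) +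
        WeierstrassCurve.Affine.Point.some x₁ y₁ h₁ =
        WeierstrassCurve.Affine.Point.some xW yW hW ∧
      2 * y₁ * t = 3 * x₁ ^ 2 + 2 * a * x₁ + b ∧ xW = t ^ 2 - a - 2 * x₁ ∧
      yW = -(y₁ + t * (xW - x₁)) := by
  have hne : y₁ ≠ (E a b c).toAffine.negY x₁ y₁ := by
    rw [negY_eq]
    exact neg_ne h2 hy
  refine ⟨(E a b c).toAffine.slope x₁ x₁ y₁ y₁, _, _, _,
    WeierstrassCurve.Affine.Point.add_self_of_Y_ne hne, ?_, ?_, ?_⟩
  · rw [slope_eq hy h2]
    field_simp
  · rw [addX_eq]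
    ring
  · rw [addY_eq]

/-- Addition of points with different `x`. -/
theorem add_ne [DecidableEq K] {a b c : K} {x₁ y₁ x₂ y₂ x y : K} (hx : x₁ ≠ x₂)
    (h₁ : (E a b c).toAffine.Nonsingular x₁ y₁) (h₂ : (E a b c).toAffine.Nonsingular x₂ y₂)
    (h : (E a b c).toAffine.Nonsingular x y)
    (he : (WeierstrassCurve.Affine.Point.some x₁ y₁ h₁ : Pt a b c) +
        WeierstrassCurve.Affine.Point.some x₂ y₂ h₂ =
        WeierstrassCurve.Affine.Point.some x y h) :
    ∃ l : K, l * (x₁ - x₂) = y₁ - y₂ ∧ x = l ^ 2 - a - x₁ - x₂ ∧ y = -(y₁ + l * (x - x₁)) := by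
  rw [WeierstrassCurve.Affine.Point.add_of_X_ne hx] at he
  injection he with h3 h4
  refine ⟨(E a b c).toAffine.slope x₁ x₂ y₁ y₂, ?_, ?_, ?_⟩
  · rw [WeierstrassCurve.Affine.slope_of_X_ne hx, div_mul_cancel₀ _ (sub_ne_zero.2 hx)]
  · rw [← h3, addX_eq]
  · rw [← h4, ← h3, addY_eq]

/-- The algebraic part of FLT. -/
theorem flt_alg {a b x₁ y₁ t xW yW m x₀ y₀ : K}
    (r2 : xW = t ^ 2 - a - 2 * x₁) (r3 : yW = -(y₁ + t * (xW - x₁)))
    (r4 : m * (xW - x₁) = yW - y₁) (r5 : x₀ = m ^ 2 - a - xW - x₁)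
    (r6 : y₀ = -(yW + m * (x₀ - xW))) :
    tder (FP a b x₀ y₀) ![m, x₁, 1] ![x₁ - xW, 2 * y₁, 0] = 0 ∧
      tder (FP a b x₀ y₀) ![x₁ - xW, 2 * y₁, 0] ![m, x₁, 1] = 0 := by
  have q1 : (m + t) * (xW - x₁) = -2 * y₁ := by
    linear_combination r4 + r3
  have q2 : x₁ - x₀ = (t - m) * (t + m) := by
    linear_combination -r5 + r2
  have q3 : (x₁ - xW) * (x₁ - x₀) = 2 * y₁ * (t - m) := by
    rw [q2]
    linear_combination (-(t - m)) * q1
  have q4 : y₀ = -y₁ + m * (x₁ - x₀) := by
    rw [r6]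
    linear_combination r4
  constructor
  · rw [tder_FP]
    simp only [Matrix.cons_val_zero, Matrix.cons_val_one, Matrix.cons_val]
    rw [q4]
    have q5 : m ^ 2 = x₀ + a + xW + x₁ := by linear_combination -r5
    linear_combination 2 * y₁ * q5
  · rw [tder_FP]
    simp only [Matrix.cons_val_zero, Matrix.cons_val_one, Matrix.cons_val]
    linear_combination (x₁ - xW) * q3 - 2 * y₁ * q1

theorem flt_ne {a b : K} {x₀ y₀ : K} {v w : Fin 3 → K} (h0 : tev (FP a b x₀ y₀) v = 0)
    (h1 : tder (FP a b x₀ y₀) v w = 0) (h2 : tder (FP a b x₀ y₀) w v = 0) (s t : K) :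
    tev (FP a b x₀ y₀) (s • v + t • w) = tev (FP a b x₀ y₀) w * t ^ 3 := by
  rw [taylor, h0, h1, h2]
  ring

end H33

open H33 in
theorem flt_thm : FLTStmt := by
  intro K _ _ h2 a b c hs x₀ y₀ h₀ T hT
  have hc₀ := curve_eq h₀.1
  cases T with
  | zero =>
    exfalso
    have h3 : (WeierstrassCurve.Affine.Point.zero : Pt a b c) = 0 := rfl
    rw [h3, add_zero, add_zero] at hT
    exact absurd hT (WeierstrassCurve.Affine.Point.some_ne_zero h₀)
  | some x₁ y₁ h₁ =>
    have hc₁ := curve_eq h₁.1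
    by_cases hne : x₁ = x₀ ∧ y₁ = y₀
    · obtain ⟨rfl, rfl⟩ := hne
      have h3 : (WeierstrassCurve.Affine.Point.some x₁ y₁ h₁ : Pt a b c) +
          WeierstrassCurve.Affine.Point.some x₁ y₁ h₁ = 0 := by
        have h4 := hT
        rw [add_assoc] at h4
        exact left_eq_add.1 h4
      have h4 : y₁ = 0 := by
        by_contra h5
        obtain ⟨t, xW, yW, hW, h6, _⟩ := dbl h2 h5 h₁
        rw [h6] at h3
        exact WeierstrassCurve.Affine.Point.some_ne_zero hW h3
      refine ⟨![0, x₁, 1], -(3 * x₁ ^ 2 + 2 * a * x₁ + b), ?_, ?_⟩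
      · intro r hr
        rw [phi_self] at hr
        have h5 := congrFun hr 2
        simp at h5
      · intro s t
        rw [phi_self, tev_FP, h4]
        simp only [Pi.add_apply, Pi.smul_apply, smul_eq_mul, Matrix.cons_val_zero,
          Matrix.cons_val_one, Matrix.cons_val]
        ring
    · have hy : y₁ ≠ 0 := by
        intro hy
        have h3 : (WeierstrassCurve.Affine.Point.some x₁ y₁ h₁ : Pt a b c) +
            WeierstrassCurve.Affine.Point.some x₁ y₁ h₁ = 0 := by
          apply WeierstrassCurve.Affine.Point.add_self_of_Y_eq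
          rw [negY_eq, hy, neg_zero]
        rw [h3, zero_add] at hT
        injection hT with h4 h5
        exact hne ⟨h4.symm, h5.symm⟩
      obtain ⟨t, xW, yW, hW, h6, r1, r2, r3⟩ := dbl h2 hy h₁
      have hWc := curve_eq hW.1
      have hx : xW ≠ x₁ := by
        intro hx
        subst hx
        have h7 : (yW - y₁) * (yW + y₁) = 0 := by linear_combination hWc - hc₁
        have h8 : yW = -y₁ := by rw [r3, sub_self, mul_zero, add_zero]
        rw [h6] at hT
        rw [WeierstrassCurve.Affine.Point.add_of_Y_eq rfl (by rw [negY_eq]; exact h8)] at hT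
        exact WeierstrassCurve.Affine.Point.some_ne_zero h₀ hT
      rw [h6] at hT
      obtain ⟨l, r4, r5, r6⟩ := add_ne hx hW h₁ h₀ hT.symm
      obtain ⟨s1, s2⟩ := slope_line h2 hc₁ hc₀ hne
      have q1 : (l + t) * (xW - x₁) = -2 * y₁ := by
        linear_combination r4 + r3
      have hm : (E a b c).toAffine.slope x₁ x₀ y₁ (-y₀) = l := by
        generalize (E a b c).toAffine.slope x₁ x₀ y₁ (-y₀) = m at *
        by_cases hx0 : x₁ = x₀
        · obtain ⟨u1, u2⟩ := s2 hx0
          have u3 : y₁ = -y₀ := by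
            rw [s1, hx0, sub_self, mul_zero, zero_sub]
          have u4 : m = t := by
            apply mul_left_cancel₀ (mul_ne_zero h2 hy)
            rw [r1]
            rw [← hx0] at u2
            rw [← u2, u3]
            ring
          have u5 : (l - t) * (l + t) = 0 := by
            linear_combination -r5 + r2 - hx0
          have u6 : l + t ≠ 0 := by
            intro u7
            rw [u7, zero_mul] at q1
            apply mul_ne_zero h2 hy
            linear_combination q1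
          rw [u4]
          exact (sub_eq_zero.1 ((mul_eq_zero.1 u5).resolve_right u6)).symm
        · apply mul_right_cancel₀ (sub_ne_zero.2 hx0)
          linear_combination -s1 + r6 + r4
      have hphi := phi_some x₀ y₀ x₁ y₁ h₁ hne
      rw [hm] at hphi
      have h0 := phi_mem h2 h₀ (WeierstrassCurve.Affine.Point.some x₁ y₁ h₁ : Pt a b c)
      rw [hphi] at h0 ⊢
      obtain ⟨d1, d2⟩ := flt_alg (b := b) r2 r3 r4 r5 r6
      refine ⟨![x₁ - xW, 2 * y₁, 0], _, ?_, flt_ne h0 d1 d2⟩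
      intro r hr
      have e1 := congrFun hr 2
      have e2 := congrFun hr 1
      simp only [Pi.smul_apply, smul_eq_mul, Matrix.cons_val_one, Matrix.cons_val,
        mul_one] at e1 e2
      rw [← e1, zero_mul] at e2
      exact mul_ne_zero h2 hy e2

end Pool.AV3
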