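import Pool.Agent.H8.AV3.Stmts

/-!
# ONT: the points of the cubic are parametrised by the points of the curve
-/

set_option autoImplicit false

namespace Pool.AV3

open Polynomial Matrix Pool.AVR

namespace H33

variable {K : Type} [Field K]

theorem curve_eq {a b c x y : K} (h : (E a b c).toAffine.Equation x y) :
    y ^ 2 = x ^ 3 + a * x ^ 2 + b * x + c := by
  have h1 := (WeierstrassCurve.Affine.equation_iff (W := (E a b c).toAffine) x y).1 h
  simp only [E, zero_mul, add_zero] at h1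
  exact h1

theorem negY_eq {a b c : K} (x y : K) : (E a b c).toAffine.negY x y = -y := by
  simp only [WeierstrassCurve.Affine.negY, E, zero_mul, sub_zero]

/-- A zero of the cubic is a simple zero. -/
theorem der_ne {a b c : K} (hs : (cub a b c).Separable) {x : K}
    (hx : x ^ 3 + a * x ^ 2 + b * x + c = 0) : 3 * x ^ 2 + 2 * a * x + b ≠ 0 := by
  intro hd
  obtain ⟨p, q, hpq⟩ := hs
  have h1 := congrArg (Polynomial.eval x) hpq
  have h2 : Polynomial.eval x (cub a b c) = 0 := by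
    simp only [cub, eval_add, eval_mul, eval_pow, eval_X, eval_C]
    exact hx
  have h3 : Polynomial.eval x (derivative (cub a b c)) = 0 := by
    simp only [cub, derivative_add, derivative_mul, derivative_pow, derivative_X, derivative_C,
      eval_add, eval_mul, eval_pow, eval_X, eval_C, eval_zero, eval_one,
      Nat.cast_ofNat]
    linear_combination hd
  rw [eval_add, eval_mul, eval_mul, h2, h3, eval_one, mul_zero, mul_zero, add_zero] at h1
  exact zero_ne_one h1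

theorem nonsing {a b c : K} (h2 : (2 : K) ≠ 0) (hs : (cub a b c).Separable) {x y : K}
    (h : y ^ 2 = x ^ 3 + a * x ^ 2 + b * x + c) : (E a b c).toAffine.Nonsingular x y := by
  rw [WeierstrassCurve.Affine.nonsingular_iff, WeierstrassCurve.Affine.equation_iff]
  refine ⟨?_, ?_⟩
  · simp only [E, zero_mul, add_zero]
    exact h
  · by_cases hy : y = 0
    · left
      rw [hy] at h
      have h3 := der_ne hs (x := x) (by rw [← h]; ring)
      intro h4
      apply h3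
      simp only [E, zero_mul] at h4
      rw [← h4]
    · right
      intro h4
      simp only [E, zero_mul, sub_zero] at h4
      apply hy
      have h5 : 2 * y = 0 := by linear_combination h4
      exact (mul_eq_zero.1 h5).resolve_left h2

theorem tev_FP (a b x₀ y₀ : K) (v : Fin 3 → K) : tev (FP a b x₀ y₀) v =
    v 0 ^ 2 * v 1 - x₀ * v 0 ^ 2 * v 2 - 2 * y₀ * v 0 * v 2 ^ 2 - v 1 ^ 2 * v 2 -
      (x₀ + a) * v 1 * v 2 ^ 2 - (x₀ ^ 2 + a * x₀ + b) * v 2 ^ 3 := by
  have e0 : FP a b x₀ y₀ 0 = 0 := rfl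
  have e1 : FP a b x₀ y₀ 1 = 1 := rfl
  have e2 : FP a b x₀ y₀ 2 = -x₀ := rfl
  have e3 : FP a b x₀ y₀ 3 = 0 := rfl
  have e4 : FP a b x₀ y₀ 4 = 0 := rfl
  have e5 : FP a b x₀ y₀ 5 = -2 * y₀ := rfl
  have e6 : FP a b x₀ y₀ 6 = 0 := rfl
  have e7 : FP a b x₀ y₀ 7 = -1 := rfl
  have e8 : FP a b x₀ y₀ 8 = -(x₀ + a) := rfl
  have e9 : FP a b x₀ y₀ 9 = -(x₀ ^ 2 + a * x₀ + b) := rfl
  rw [tev, e0, e1, e2, e3, e4, e5, e6, e7, e8, e9]
  ring

theorem tder_FP (a b x₀ y₀ : K) (v w : Fin 3 → K) : tder (FP a b x₀ y₀) v w =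
    (2 * v 0 * v 1 * w 0 + v 0 ^ 2 * w 1) - x₀ * (2 * v 0 * v 2 * w 0 + v 0 ^ 2 * w 2) -
      2 * y₀ * (v 2 ^ 2 * w 0 + 2 * v 0 * v 2 * w 2) - (2 * v 1 * v 2 * w 1 + v 1 ^ 2 * w 2) -
      (x₀ + a) * (v 2 ^ 2 * w 1 + 2 * v 1 * v 2 * w 2) -
      (x₀ ^ 2 + a * x₀ + b) * (3 * v 2 ^ 2 * w 2) := by
  have e0 : FP a b x₀ y₀ 0 = 0 := rfl
  have e1 : FP a b x₀ y₀ 1 = 1 := rfl
  have e2 : FP a b x₀ y₀ 2 = -x₀ := rfl
  have e3 : FP a b x₀ y₀ 3 = 0 := rfl
  have e4 : FP a b x₀ y₀ 4 = 0 := rfl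
  have e5 : FP a b x₀ y₀ 5 = -2 * y₀ := rfl
  have e6 : FP a b x₀ y₀ 6 = 0 := rfl
  have e7 : FP a b x₀ y₀ 7 = -1 := rfl
  have e8 : FP a b x₀ y₀ 8 = -(x₀ + a) := rfl
  have e9 : FP a b x₀ y₀ 9 = -(x₀ ^ 2 + a * x₀ + b) := rfl
  rw [tder, e0, e1, e2, e3, e4, e5, e6, e7, e8, e9]
  ring

/-- The slope between a point and `-Q`. -/
theorem slope_ne [DecidableEq K] {a b c x x₀ y y₀ : K} (h : x ≠ x₀) :
    (E a b c).toAffine.slope x x₀ y (-y₀) = (y + y₀) / (x - x₀) := by
  rw [WeierstrassCurve.Affine.slope_of_X_ne h, sub_neg_eq_add]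

/-- The slope at `-Q`. -/
theorem slope_eq [DecidableEq K] {a b c x y : K} (hy : y ≠ 0) (h2 : (2 : K) ≠ 0) :
    (E a b c).toAffine.slope x x y y = (3 * x ^ 2 + 2 * a * x + b) / (2 * y) := by
  have h : y ≠ (E a b c).toAffine.negY x y := by
    rw [negY_eq]
    intro h
    apply mul_ne_zero h2 hy
    linear_combination h
  rw [WeierstrassCurve.Affine.slope_of_Y_ne rfl h, negY_eq]
  simp only [E, zero_mul, sub_zero]
  rw [sub_neg_eq_add, ← two_mul]

theorem phi_zero [DecidableEq K] {a b c : K} (x₀ y₀ : K) :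
    phi x₀ y₀ (0 : Pt a b c) = ![0, 1, 0] := rfl

theorem phi_self [DecidableEq K] {a b c : K} (x₀ y₀ : K)
    (h : (E a b c).toAffine.Nonsingular x₀ y₀) :
    phi x₀ y₀ (.some x₀ y₀ h : Pt a b c) = ![1, 0, 0] := by
  have h1 : phi x₀ y₀ (.some x₀ y₀ h : Pt a b c) = if x₀ = x₀ ∧ y₀ = y₀ then ![1, 0, 0]
      else ![(E a b c).toAffine.slope x₀ x₀ y₀ (-y₀), x₀, 1] := rfl
  rw [h1, if_pos ⟨rfl, rfl⟩]

theorem phi_some [DecidableEq K] {a b c : K} (x₀ y₀ x y : K)
    (h : (E a b c).toAffine.Nonsingular x y) (hne : ¬ (x = x₀ ∧ y = y₀)) :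
    phi x₀ y₀ (.some x y h : Pt a b c) =
      ![(E a b c).toAffine.slope x x₀ y (-y₀), x, 1] := by
  have h1 : phi x₀ y₀ (.some x y h : Pt a b c) = if x = x₀ ∧ y = y₀ then ![1, 0, 0]
      else ![(E a b c).toAffine.slope x x₀ y (-y₀), x, 1] := rfl
  rw [h1, if_neg hne]

/-- The slope `m` satisfies `y = m (x - x₀) - y₀`. -/
theorem slope_line [DecidableEq K] {a b c x x₀ y y₀ : K} (h2 : (2 : K) ≠ 0)
    (hc : y ^ 2 = x ^ 3 + a * x ^ 2 + b * x + c) (hc₀ : y₀ ^ 2 = x₀ ^ 3 + a * x₀ ^ 2 + b * x₀ + c)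
    (hne : ¬ (x = x₀ ∧ y = y₀)) :
    y = (E a b c).toAffine.slope x x₀ y (-y₀) * (x - x₀) - y₀ ∧
      (x = x₀ → y₀ ≠ 0 ∧ -2 * y₀ * (E a b c).toAffine.slope x x₀ y (-y₀) =
        3 * x₀ ^ 2 + 2 * a * x₀ + b) := by
  by_cases hx : x = x₀
  · subst hx
    have h3 : (y - y₀) * (y + y₀) = 0 := by linear_combination hc - hc₀
    have h4 : y - y₀ ≠ 0 := by
      intro h5
      exact hne ⟨rfl, sub_eq_zero.1 h5⟩
    have h5 : y = -y₀ := eq_neg_of_add_eq_zero_left ((mul_eq_zero.1 h3).resolve_left h4)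
    have h6 : y₀ ≠ 0 := by
      intro h7
      apply h4
      rw [h5, h7]
      ring
    refine ⟨by rw [sub_self, mul_zero, zero_sub, h5], fun _ => ⟨h6, ?_⟩⟩
    rw [h5, slope_eq (neg_ne_zero.2 h6) h2]
    field_simp
  · refine ⟨?_, fun h => absurd h hx⟩
    rw [slope_ne hx, div_mul_cancel₀ _ (sub_ne_zero.2 hx)]
    ring

theorem phi_mem [DecidableEq K] {a b c : K} (h2 : (2 : K) ≠ 0) {x₀ y₀ : K}
    (h₀ : (E a b c).toAffine.Nonsingular x₀ y₀) (T : Pt a b c) :
    tev (FP a b x₀ y₀) (phi x₀ y₀ T) = 0 := by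
  rw [tev_FP]
  have hc₀ := curve_eq h₀.1
  cases T with
  | zero =>
    have h1 : phi x₀ y₀ (WeierstrassCurve.Affine.Point.zero : Pt a b c) = ![0, 1, 0] := rfl
    rw [h1]
    simp
  | some x y h =>
    by_cases hne : x = x₀ ∧ y = y₀
    · obtain ⟨rfl, rfl⟩ := hne
      rw [phi_self]
      simp
    · rw [phi_some x₀ y₀ x y h hne]
      have hc := curve_eq h.1
      obtain ⟨h3, h4⟩ := slope_line h2 hc hc₀ hne
      generalize (E a b c).toAffine.slope x x₀ y (-y₀) = m at *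
      simp only [Matrix.cons_val_zero, Matrix.cons_val_one, Matrix.cons_val]
      by_cases hx : x = x₀
      · obtain ⟨_, h5⟩ := h4 hx
        subst hx
        linear_combination h5
      · apply mul_left_cancel₀ (sub_ne_zero.2 hx)
        rw [h3] at hc
        linear_combination hc - hc₀

end H33

open H33 in
theorem ont_thm : ONTStmt := by
  intro K _ _ h2 a b c hs x₀ y₀ h₀
  refine ⟨fun T => phi_mem h2 h₀ T, fun v hv hv0 => ?_⟩
  have hc₀ := curve_eq h₀.1
  rw [tev_FP] at hv0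
  by_cases hz : v 2 = 0
  · rw [hz] at hv0
    have h3 : v 0 ^ 2 * v 1 = 0 := by linear_combination hv0
    rcases mul_eq_zero.1 h3 with h4 | h4
    · have h5 : v 0 = 0 := pow_eq_zero_iff (two_ne_zero) |>.1 h4
      have h6 : v 1 ≠ 0 := by
        intro h6
        apply hv
        funext i
        fin_cases i
        · exact h5
        · exact h6
        · exact hz
      refine ⟨0, v 1, h6, ?_⟩
      rw [phi_zero]
      funext i
      fin_cases i
      · simp [h5]
      · simp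
      · simp [hz]
    · have h6 : v 0 ≠ 0 := by
        intro h6
        apply hv
        funext i
        fin_cases i
        · exact h6
        · exact h4
        · exact hz
      refine ⟨.some x₀ y₀ h₀, v 0, h6, ?_⟩
      rw [phi_self]
      funext i
      fin_cases i
      · simp
      · simp [h4]
      · simp [hz]
  · obtain ⟨m, hm⟩ : ∃ m, m = v 0 / v 2 := ⟨_, rfl⟩
    obtain ⟨x, hx⟩ : ∃ x, x = v 1 / v 2 := ⟨_, rfl⟩
    have hm' : v 0 = v 2 * m := by rw [hm, mul_div_cancel₀ _ hz]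
    have hx' : v 1 = v 2 * x := by rw [hx, mul_div_cancel₀ _ hz]
    have h3 : m ^ 2 * x - x₀ * m ^ 2 - 2 * y₀ * m - x ^ 2 - (x₀ + a) * x -
        (x₀ ^ 2 + a * x₀ + b) = 0 := by
      apply mul_left_cancel₀ (pow_ne_zero 3 hz)
      rw [hm', hx'] at hv0
      linear_combination hv0
    have hc : (m * (x - x₀) - y₀) ^ 2 = x ^ 3 + a * x ^ 2 + b * x + c := by
      linear_combination (x - x₀) * h3 + hc₀
    obtain ⟨y, hy⟩ : ∃ y, y = m * (x - x₀) - y₀ := ⟨_, rfl⟩
    rw [← hy] at hc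
    have hne : ¬ (x = x₀ ∧ y = y₀) := by
      rintro ⟨h4, h5⟩
      rw [h4] at hy h3
      have h6 : y₀ = 0 := by
        have h7 : 2 * y₀ = 0 := by
          rw [h5] at hy
          linear_combination hy
        exact (mul_eq_zero.1 h7).resolve_left h2
      apply der_ne hs (x := x₀) (by rw [← hc₀, h6]; ring)
      rw [h6] at h3
      linear_combination -h3
    refine ⟨.some x y (nonsing h2 hs hc), v 2, hz, ?_⟩
    rw [phi_some _ _ _ _ _ hne]
    obtain ⟨h5, h6⟩ := slope_line h2 hc hc₀ hne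
    have h7 : (E a b c).toAffine.slope x x₀ y (-y₀) = m := by
      generalize (E a b c).toAffine.slope x x₀ y (-y₀) = m' at *
      by_cases hxx : x = x₀
      · obtain ⟨h8, h9⟩ := h6 hxx
        rw [hxx] at h3
        apply mul_left_cancel₀ (mul_ne_zero h2 h8)
        linear_combination -h9 + h3
      · apply mul_right_cancel₀ (sub_ne_zero.2 hxx)
        linear_combination hy - h5
    rw [h7]
    funext i
    fin_cases i
    · exact hm'
    · exact hx'
    · simp

end Pool.AV3
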